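import Mathlib

/-!
A coherent sequence of finite-to-one functions on a well ordered set with countable initial
segments, and the resulting Countryman type colouring.
-/

open Set Filter

namespace Pool.Agent.Helper627_Conc

variable {Ω : Type} [LinearOrder Ω] [WellFoundedLT Ω]

theorem exists_enum (hc : ∀ a : Ω, (Set.Iio a).Countable) (a : Ω) :
    ∃ f : ℕ → Ω, (∃ b, b < a) → ((∀ n, f n < a) ∧ ∀ b < a, ∃ n, f n = b) := by
  by_cases h : ∃ b, b < a
  · obtain ⟨f, hf⟩ := (hc a).exists_eq_range h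
    refine ⟨f, fun _ => ⟨fun n => ?_, fun b hb => ?_⟩⟩
    · have : f n ∈ Set.Iio a := by rw [hf]; exact ⟨n, rfl⟩
      exact this
    · have : b ∈ Set.range f := by rw [← hf]; exact hb
      exact this
  · exact ⟨fun _ => a, fun h' => absurd h' h⟩

theorem exists_rec (g : Ω → ℕ → Ω) (hg : ∀ a, (∃ b, b < a) → ∀ n, g a n < a)
    (nn : Ω → Ω → ℕ) :
    ∃ e : Ω → Ω → ℕ, ∀ a ξ, e a ξ = if ξ < a then max (e (g a (nn a ξ)) ξ) (nn a ξ + 1) else 0 := by
  classical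
  let F : (a : Ω) → ((b : Ω) → b < a → (Ω → ℕ)) → (Ω → ℕ) := fun a IH ξ =>
    if h : ξ < a then max (IH (g a (nn a ξ)) (hg a ⟨ξ, h⟩ _) ξ) (nn a ξ + 1) else 0
  refine ⟨(wellFounded_lt (α := Ω)).fix F, fun a ξ => ?_⟩
  rw [WellFounded.fix_eq]
  by_cases h : ξ < a
  · simp only [F, h, dif_pos, if_pos]
  · simp only [F, h, dif_neg, not_false_eq_true, if_neg]

theorem exists_coherent (hc : ∀ a : Ω, (Set.Iio a).Countable) :
    ∃ e : Ω → Ω → ℕ, (∀ a ξ, e a ξ = 0 ↔ a ≤ ξ) ∧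
      (∀ a k, {ξ | ξ < a ∧ e a ξ ≤ k}.Finite) ∧
      (∀ b a, a ≤ b → {ξ | ξ < a ∧ e a ξ ≠ e b ξ}.Finite) := by
  classical
  choose g hg using exists_enum hc
  have hnn : ∀ a ξ, ∃ n, ξ < a → (ξ ≤ g a n ∧ ∀ m, ξ ≤ g a m → n ≤ m) := by
    intro a ξ
    by_cases h : ξ < a
    · have hex : ∃ n, ξ ≤ g a n := by
        obtain ⟨n, hn⟩ := (hg a ⟨ξ, h⟩).2 ξ h
        exact ⟨n, hn.ge⟩
      exact ⟨Nat.find hex, fun _ => ⟨Nat.find_spec hex, fun m hm => Nat.find_min' hex hm⟩⟩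
    · exact ⟨0, fun h' => absurd h' h⟩
  choose nn hnn using hnn
  obtain ⟨e, he⟩ := exists_rec g (fun a h => (hg a h).1) nn
  have h0 : ∀ a ξ, e a ξ = 0 ↔ a ≤ ξ := by
    intro a ξ
    rw [he a ξ]
    by_cases h : ξ < a
    · simp [h]
    · simp [h, not_lt.mp h]
  have h1 : ∀ a k, {ξ | ξ < a ∧ e a ξ ≤ k}.Finite := by
    intro a
    induction a using WellFoundedLT.induction with
    | ind a IH =>
      intro k
      by_cases ha : ∃ b, b < a
      · have hsub : {ξ | ξ < a ∧ e a ξ ≤ k} ⊆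
            ⋃ n ∈ Set.Iic k, ({g a n} ∪ {ξ | ξ < g a n ∧ e (g a n) ξ ≤ k}) := by
          rintro ξ ⟨h, hk⟩
          rw [he a ξ, if_pos h] at hk
          have hle : nn a ξ ≤ k := by
            have := le_max_right (e (g a (nn a ξ)) ξ) (nn a ξ + 1)
            omega
          have hle2 : e (g a (nn a ξ)) ξ ≤ k := (le_max_left _ _).trans hk
          refine Set.mem_iUnion₂.mpr ⟨nn a ξ, hle, ?_⟩
          rcases (hnn a ξ h).1.eq_or_lt with heq | hlt
          · left; exact heq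
          · right; exact ⟨hlt, hle2⟩
        refine Set.Finite.subset ?_ hsub
        refine (Set.finite_Iic k).biUnion fun n _ => ?_
        exact (Set.finite_singleton _).union (IH _ ((hg a ha).1 n) k)
      · have : {ξ | ξ < a ∧ e a ξ ≤ k} = ∅ := by
          ext ξ
          simp only [Set.mem_ofPred_eq, Set.mem_empty_iff_false, iff_false, not_and]
          intro h
          exact absurd ⟨ξ, h⟩ ha
        rw [this]; exact Set.finite_empty
  refine ⟨e, h0, h1, ?_⟩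
  intro b
  induction b using WellFoundedLT.induction with
  | ind b IH =>
    intro a hab
    rcases hab.eq_or_lt with rfl | hab
    · have : {ξ | ξ < a ∧ e a ξ ≠ e a ξ} = ∅ := by ext ξ; simp
      rw [this]; exact Set.finite_empty
    · obtain ⟨m, hm⟩ := (hg b ⟨a, hab⟩).2 a hab
      have hsub : {ξ | ξ < a ∧ e a ξ ≠ e b ξ} ⊆
          ⋃ n ∈ Set.Iic m, (({g b n} ∪ {ξ | ξ < g b n ∧ e (g b n) ξ ≤ n + 1}) ∪
            {ξ | ξ < a ∧ ξ < g b n ∧ e a ξ ≠ e (g b n) ξ}) := by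
        rintro ξ ⟨h, hne⟩
        have hb : ξ < b := h.trans hab
        have hle : nn b ξ ≤ m := (hnn b ξ hb).2 m (by rw [hm]; exact h.le)
        refine Set.mem_iUnion₂.mpr ⟨nn b ξ, hle, ?_⟩
        rcases (hnn b ξ hb).1.eq_or_lt with heq | hlt
        · left; left; exact heq
        · by_cases hs : e (g b (nn b ξ)) ξ ≤ nn b ξ + 1
          · left; right; exact ⟨hlt, hs⟩
          · right
            refine ⟨h, hlt, ?_⟩
            have : e b ξ = e (g b (nn b ξ)) ξ := by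
              rw [he b ξ, if_pos hb]
              exact max_eq_left (by omega)
            rw [← this]; exact hne
      refine Set.Finite.subset ?_ hsub
      refine (Set.finite_Iic m).biUnion fun n _ => ?_
      have hgn : g b n < b := (hg b ⟨a, hab⟩).1 n
      refine ((Set.finite_singleton _).union (h1 _ _)).union ?_
      rcases le_total a (g b n) with hle | hle
      · refine (IH (g b n) hgn a hle).subset ?_
        rintro ξ ⟨h, _, h3⟩
        exact ⟨h, h3⟩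
      · refine (IH a hab (g b n) hle).subset ?_
        rintro ξ ⟨_, h, h3⟩
        exact ⟨h, h3.symm⟩

/-- lexicographic comparison at the first difference -/
def LL (r : ℕ → ℕ → Prop) (e : Ω → Ω → ℕ) (a b : Ω) : Prop :=
  ∃ ξ, (∀ ζ < ξ, e a ζ = e b ζ) ∧ r (e a ξ) (e b ξ)

theorem first_diff {e : Ω → Ω → ℕ} (h0 : ∀ a ξ, e a ξ = 0 ↔ a ≤ ξ) {a b : Ω} (hab : a ≠ b) :
    ∃ ξ, (∀ ζ < ξ, e a ζ = e b ζ) ∧ e a ξ ≠ e b ξ := by
  have hex : ∃ ξ, e a ξ ≠ e b ξ := by
    rcases lt_or_gt_of_ne hab with h | h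
    · refine ⟨a, ?_⟩
      rw [(h0 a a).2 le_rfl]
      intro h'
      exact absurd ((h0 b a).1 h'.symm) (not_le.mpr h)
    · refine ⟨b, ?_⟩
      rw [(h0 b b).2 le_rfl]
      intro h'
      exact absurd ((h0 a b).1 h') (not_le.mpr h)
  let ξ := (wellFounded_lt (α := Ω)).min {ξ | e a ξ ≠ e b ξ} hex
  refine ⟨ξ, fun ζ hζ => ?_, (wellFounded_lt (α := Ω)).min_mem {ξ | e a ξ ≠ e b ξ} hex⟩
  by_contra hne
  exact (wellFounded_lt (α := Ω)).not_lt_min {ξ | e a ξ ≠ e b ξ} hne hζ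

theorem LL_total {e : Ω → Ω → ℕ} (h0 : ∀ a ξ, e a ξ = 0 ↔ a ≤ ξ) {a b : Ω} (hab : a ≠ b) :
    LL (· < ·) e a b ∨ LL (· < ·) e b a := by
  obtain ⟨ξ, h1, h2⟩ := first_diff h0 hab
  rcases lt_or_gt_of_ne h2 with h | h
  · left; exact ⟨ξ, h1, h⟩
  · right; exact ⟨ξ, fun ζ hζ => (h1 ζ hζ).symm, h⟩

/-- if the first difference is at `ξ` then the comparison is the one at `ξ` -/
theorem LL_iff {e : Ω → Ω → ℕ} {a b ξ : Ω} (h1 : ∀ ζ < ξ, e a ζ = e b ζ) (h2 : e a ξ ≠ e b ξ) :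
    LL (· < ·) e a b ↔ e a ξ < e b ξ := by
  constructor
  · rintro ⟨η, h3, h4⟩
    rcases lt_trichotomy η ξ with h | h | h
    · have := h1 η h
      have h4' : e a η < e b η := h4
      omega
    · rw [← h]; exact h4
    · exact absurd (h3 ξ h) h2
  · intro h
    exact ⟨ξ, h1, h⟩

theorem LL_asymm {e : Ω → Ω → ℕ} {a b : Ω} (h : LL (· < ·) e a b) : ¬ LL (· < ·) e b a := by
  obtain ⟨ξ, h1, h2⟩ := h
  have h2' : e a ξ < e b ξ := h2
  rw [LL_iff (fun ζ hζ => (h1 ζ hζ).symm) (Nat.ne_of_gt h2')]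
  omega

theorem cocount_of_countable {I : Type} {p : I → Prop} (h : {x | ¬ p x}.Countable) :
    ∀ᶠ x in cocountable, p x := by
  rw [Filter.Eventually, mem_cocountable]
  exact h

theorem countable_of_cocount {I : Type} {p : I → Prop} (h : ∀ᶠ x in cocountable, p x) :
    {x | ¬ p x}.Countable := by
  rw [Filter.Eventually, mem_cocountable] at h
  exact h


/-- sorted lists with the same values under `f`, `f'`, which agree below `ξ` -/
theorem list_key {V : Type} (f f' : Ω → V) (ξ : Ω) :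
    ∀ (L L' : List Ω), L.Pairwise (· < ·) → L'.Pairwise (· < ·) → L.map f = L'.map f' →
      (∀ ζ < ξ, ζ ∈ L ↔ ζ ∈ L') → ξ ∈ L → ξ ∈ L' → f ξ = f' ξ := by
  intro L
  induction L with
  | nil => intro L' _ _ _ _ h; exact absurd h (List.not_mem_nil)
  | cons x t IH =>
    intro L' hs hs' hmap hag h h'
    cases L' with
    | nil => exact absurd h' (List.not_mem_nil)
    | cons x' t' =>
      rw [List.pairwise_cons] at hs hs'
      simp only [List.map_cons, List.cons.injEq] at hmap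
      by_cases hx : ξ = x
      · subst hx
        have h1 : ¬ x' < ξ := by
          intro hlt
          have := (hag x' hlt).2 List.mem_cons_self
          rcases List.mem_cons.mp this with h2 | h2
          · exact absurd h2 hlt.ne
          · exact absurd (hs.1 x' h2) (not_lt.mpr hlt.le)
        have h2 : x' = ξ := by
          rcases List.mem_cons.mp h' with h2 | h2
          · exact h2.symm
          · exact absurd (hs'.1 ξ h2) h1
        rw [hmap.1, h2]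
      · have hxt : ξ ∈ t := by
          rcases List.mem_cons.mp h with h2 | h2
          · exact absurd h2 hx
          · exact h2
        have hlt : x < ξ := hs.1 ξ hxt
        have hxx : x' = x := by
          have h2 := (hag x hlt).1 List.mem_cons_self
          rcases List.mem_cons.mp h2 with h3 | h3
          · exact h3.symm
          · have h4 : x' < x := hs'.1 x h3
            have h5 := (hag x' (h4.trans hlt)).2 List.mem_cons_self
            rcases List.mem_cons.mp h5 with h6 | h6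
            · exact h6
            · exact absurd (hs.1 x' h6) (not_lt.mpr h4.le)
        subst hxx
        have hxt' : ξ ∈ t' := by
          rcases List.mem_cons.mp h' with h2 | h2
          · exact absurd h2 hx
          · exact h2
        refine IH t' hs.2 hs'.2 hmap.2 ?_ hxt hxt'
        intro ζ hζ
        have h2 := hag ζ hζ
        simp only [List.mem_cons] at h2
        constructor
        · intro h3
          rcases h2.1 (Or.inr h3) with h4 | h4
          · exact absurd (hs.1 ζ h3) (by rw [h4]; exact lt_irrefl _)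
          · exact h4
        · intro h3
          rcases h2.2 (Or.inr h3) with h4 | h4
          · exact absurd (hs'.1 ζ h3) (by rw [h4]; exact lt_irrefl _)
          · exact h4

/-- The code of a pair. -/
theorem exists_code {e : Ω → Ω → ℕ} (h0 : ∀ a ξ, e a ξ = 0 ↔ a ≤ ξ)
    (h1 : ∀ a k, {ξ | ξ < a ∧ e a ξ ≤ k}.Finite)
    (h2 : ∀ b a, a ≤ b → {ξ | ξ < a ∧ e a ξ ≠ e b ξ}.Finite) (a b : Ω) :
    ∃ (n : ℕ) (L : List Ω), L.Pairwise (· < ·) ∧
      (∀ ξ, ξ ∈ L ↔ (ξ ≤ a ∧ ξ ≤ b ∧ (e a ξ ≤ n ∨ e b ξ ≤ n))) ∧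
      (∀ ξ, ξ ≤ a → ξ ≤ b → e a ξ ≠ e b ξ → e a ξ ≤ n ∧ e b ξ ≤ n) := by
  classical
  have hD : {ξ | ξ ≤ a ∧ ξ ≤ b ∧ e a ξ ≠ e b ξ}.Finite := by
    have h3 : ({ξ | ξ < min a b ∧ e a ξ ≠ e b ξ} ∪ {min a b}).Finite := by
      refine Set.Finite.union ?_ (Set.finite_singleton _)
      rcases le_total a b with h | h
      · rw [min_eq_left h]; exact h2 b a h
      · rw [min_eq_right h]
        refine (h2 a b h).subset ?_
        rintro ξ ⟨h3, h4⟩
        exact ⟨h3, h4.symm⟩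
    refine h3.subset ?_
    rintro ξ ⟨h4, h5, h6⟩
    rcases (le_min h4 h5).eq_or_lt with h7 | h7
    · right; exact h7
    · left; exact ⟨h7, h6⟩
  obtain ⟨n, hn⟩ : ∃ n : ℕ, ∀ ξ, ξ ≤ a → ξ ≤ b → e a ξ ≠ e b ξ → e a ξ ≤ n ∧ e b ξ ≤ n := by
    refine ⟨hD.toFinset.sup (fun ξ => max (e a ξ) (e b ξ)), fun ξ h3 h4 h5 => ?_⟩
    have hm : ξ ∈ hD.toFinset := by
      rw [Set.Finite.mem_toFinset]; exact ⟨h3, h4, h5⟩
    have := Finset.le_sup (f := fun ξ => max (e a ξ) (e b ξ)) hm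
    exact ⟨(le_max_left _ _).trans this, (le_max_right _ _).trans this⟩
  have hH : {ξ | ξ ≤ a ∧ ξ ≤ b ∧ (e a ξ ≤ n ∨ e b ξ ≤ n)}.Finite := by
    have h3 : ((({ξ | ξ < a ∧ e a ξ ≤ n}) ∪ {a}) ∪ (({ξ | ξ < b ∧ e b ξ ≤ n}) ∪ {b})).Finite :=
      ((h1 a n).union (Set.finite_singleton _)).union ((h1 b n).union (Set.finite_singleton _))
    refine h3.subset ?_
    rintro ξ ⟨h4, h5, h6⟩
    rcases h6 with h6 | h6
    · left
      rcases h4.eq_or_lt with h7 | h7
      · right; exact h7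
      · left; exact ⟨h7, h6⟩
    · right
      rcases h5.eq_or_lt with h7 | h7
      · right; exact h7
      · left; exact ⟨h7, h6⟩
  refine ⟨n, hH.toFinset.sort (· ≤ ·), ?_, fun ξ => ?_, hn⟩
  · exact (Finset.sortedLT_sort _).pairwise
  · rw [Finset.mem_sort, Set.Finite.mem_toFinset]; rfl

/-- The key lemma: pairs with the same code. -/
theorem code_key {e : Ω → Ω → ℕ} (h0 : ∀ a ξ, e a ξ = 0 ↔ a ≤ ξ) {a b a' b' : Ω} {n : ℕ}
    {L L' : List Ω} (hL : L.Pairwise (· < ·)) (hL' : L'.Pairwise (· < ·))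
    (hm : ∀ ξ, ξ ∈ L ↔ (ξ ≤ a ∧ ξ ≤ b ∧ (e a ξ ≤ n ∨ e b ξ ≤ n)))
    (hm' : ∀ ξ, ξ ∈ L' ↔ (ξ ≤ a' ∧ ξ ≤ b' ∧ (e a' ξ ≤ n ∨ e b' ξ ≤ n)))
    (hn : ∀ ξ, ξ ≤ a → ξ ≤ b → e a ξ ≠ e b ξ → e a ξ ≤ n ∧ e b ξ ≤ n)
    (hn' : ∀ ξ, ξ ≤ a' → ξ ≤ b' → e a' ξ ≠ e b' ξ → e a' ξ ≤ n ∧ e b' ξ ≤ n)
    (hmap : L.map (fun ξ => (e a ξ, e b ξ)) = L'.map (fun ξ => (e a' ξ, e b' ξ)))
    (haa : a ≠ a') (hbb : b ≠ b') :
    LL (· < ·) e a a' ↔ LL (· < ·) e b b' := by
  have hex : ∃ ξ, e a ξ ≠ e a' ξ ∨ e b ξ ≠ e b' ξ := by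
    obtain ⟨ξ, _, h⟩ := first_diff h0 haa
    exact ⟨ξ, Or.inl h⟩
  obtain ⟨ξ, hξ, hlt⟩ : ∃ ξ, (e a ξ ≠ e a' ξ ∨ e b ξ ≠ e b' ξ) ∧
      ∀ ζ < ξ, e a ζ = e a' ζ ∧ e b ζ = e b' ζ := by
    refine ⟨(wellFounded_lt (α := Ω)).min {ξ | e a ξ ≠ e a' ξ ∨ e b ξ ≠ e b' ξ} hex,
      (wellFounded_lt (α := Ω)).min_mem {ξ | e a ξ ≠ e a' ξ ∨ e b ξ ≠ e b' ξ} hex,
      fun ζ hζ => ?_⟩
    by_contra hne
    refine (wellFounded_lt (α := Ω)).not_lt_min {ξ | e a ξ ≠ e a' ξ ∨ e b ξ ≠ e b' ξ} ?_ hζ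
    show e a ζ ≠ e a' ζ ∨ e b ζ ≠ e b' ζ
    by_contra h
    push Not at h
    exact hne h
  have hbound : ∀ (u v : Ω), u ≠ v → (∀ ζ < ξ, e u ζ = e v ζ) → ξ ≤ u := by
    intro u v huv hag
    by_contra hlt'
    have hlt' := not_le.mp hlt'
    have h3 := hag u hlt'
    rw [(h0 u u).2 le_rfl] at h3
    have h4 : v ≤ u := (h0 v u).1 h3.symm
    have h5 := hag v (h4.trans_lt hlt')
    rw [(h0 v v).2 le_rfl] at h5
    have h6 : u ≤ v := (h0 u v).1 h5
    exact huv (le_antisymm h6 h4)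
  have ha : ξ ≤ a := hbound a a' haa (fun ζ hζ => (hlt ζ hζ).1)
  have ha' : ξ ≤ a' := hbound a' a haa.symm (fun ζ hζ => (hlt ζ hζ).1.symm)
  have hb : ξ ≤ b := hbound b b' hbb (fun ζ hζ => (hlt ζ hζ).2)
  have hb' : ξ ≤ b' := hbound b' b hbb.symm (fun ζ hζ => (hlt ζ hζ).2.symm)
  -- both differ at ξ, in the same direction
  have hmain : (e a ξ ≠ e a' ξ ∧ e b ξ ≠ e b' ξ) ∧ (e a ξ < e a' ξ ↔ e b ξ < e b' ξ) := by
    have hagree : ∀ ζ < ξ, ζ ∈ L ↔ ζ ∈ L' := by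
      intro ζ hζ
      rw [hm, hm', (hlt ζ hζ).1, (hlt ζ hζ).2]
      have h1 : ζ ≤ a := hζ.le.trans ha
      have h2 : ζ ≤ a' := hζ.le.trans ha'
      have h3 : ζ ≤ b := hζ.le.trans hb
      have h4 : ζ ≤ b' := hζ.le.trans hb'
      simp [h1, h2, h3, h4]
    by_cases hD : e a ξ = e b ξ
    · by_cases hD' : e a' ξ = e b' ξ
      · rw [hD, hD'] at hξ ⊢
        rcases hξ with h | h <;> exact ⟨⟨h, h⟩, Iff.rfl⟩
      · have h5 := hn' ξ ha' hb' hD'
        have h6 : ξ ∈ L' := (hm' ξ).2 ⟨ha', hb', Or.inl h5.1⟩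
        have h7 : ξ ∉ L := by
          intro h7
          have h8 := list_key _ _ ξ L L' hL hL' hmap hagree h7 h6
          simp only [Prod.mk.injEq] at h8
          rcases hξ with h | h
          · exact h h8.1
          · exact h h8.2
        rw [hm] at h7
        push Not at h7
        have h8 := h7 ha hb
        omega
    · have h5 := hn ξ ha hb hD
      have h6 : ξ ∈ L := (hm ξ).2 ⟨ha, hb, Or.inl h5.1⟩
      have h7 : ξ ∉ L' := by
        intro h7
        have h8 := list_key _ _ ξ L L' hL hL' hmap hagree h6 h7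
        simp only [Prod.mk.injEq] at h8
        rcases hξ with h | h
        · exact h h8.1
        · exact h h8.2
      rw [hm'] at h7
      push Not at h7
      have h8 := h7 ha' hb'
      omega
  rw [LL_iff (fun ζ hζ => (hlt ζ hζ).1) hmain.1.1, LL_iff (fun ζ hζ => (hlt ζ hζ).2) hmain.1.2]
  exact hmain.2

end Pool.Agent.Helper627_Conc
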