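import Mathlib
import Pool.Agent.Helper627_Conc.Comb

open Set Filter

namespace Pool.Agent.Helper627_Conc

variable {Ω : Type} [LinearOrder Ω] [WellFoundedLT Ω]

theorem cocountable_inter (I : Type) : CountableInterFilter (cocountable : Filter I) := by
  refine ⟨fun S hS h => ?_⟩
  rw [mem_cocountable, Set.compl_sInter]
  refine Set.Countable.sUnion (hS.image _) ?_
  rintro _ ⟨s, hs, rfl⟩
  exact mem_cocountable.1 (h s hs)

attribute [local instance] cocountable_inter

/-- No uncountable family is monotone for the lexicographic comparison. -/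
theorem no_mono [Uncountable Ω] (hc : ∀ a : Ω, (Set.Iio a).Countable)
    {e : Ω → Ω → ℕ} (h0 : ∀ a ξ, e a ξ = 0 ↔ a ≤ ξ)
    (h1 : ∀ a k, {ξ | ξ < a ∧ e a ξ ≤ k}.Finite)
    (r : ℕ → ℕ → Prop) (hr : ∀ u v, r u v → ¬ r v u)
    {I : Type} [Uncountable I] (x : I → Ω) (hx : ∀ γ, ∀ᶠ β in cocountable, γ < x β) :
    ¬ ∀ α, ∀ᶠ β in cocountable, LL r e (x α) (x β) := by
  classical
  intro hmono
  have hne : (cocountable : Filter I).NeBot := by
    rw [Filter.neBot_iff]
    intro hbot
    have h3 : (∅ : Set I) ∈ (cocountable : Filter I) := by rw [hbot]; exact Filter.mem_bot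
    rw [mem_cocountable, Set.compl_empty] at h3
    exact Set.not_countable_univ h3
  have hirr : ∀ u, ¬ r u u := fun u h => hr u u h h
  have hstep : ∀ ζ : Ω, ∃ v : ℕ, ∀ᶠ β in (cocountable : Filter I), e (x β) ζ = v := by
    intro ζ
    induction ζ using WellFoundedLT.induction with
    | ind ζ IH =>
      choose! v hv using IH
      have hG : ∀ᶠ β in (cocountable : Filter I), ∀ ζ' ∈ Set.Iio ζ, e (x β) ζ' = v ζ' :=
        (eventually_countable_ball (hc ζ)).2 fun ζ' hζ' => hv ζ' hζ'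
      -- comparison of frequent values
      have hcmp : ∀ v₀ v₁, v₀ ≠ v₁ → (∃ᶠ β in (cocountable : Filter I), e (x β) ζ = v₀) →
          (∃ᶠ β in (cocountable : Filter I), e (x β) ζ = v₁) → r v₀ v₁ := by
        intro v₀ v₁ hne' hf0 hf1
        obtain ⟨α, hα, hαG⟩ := (hf0.and_eventually hG).exists
        obtain ⟨β, ⟨hβ, hβG⟩, hL⟩ := ((hf1.and_eventually hG).and_eventually (hmono α)).exists
        obtain ⟨ξ, h3, h4⟩ := hL
        have h5 : ξ = ζ := by
          rcases lt_trichotomy ξ ζ with h | h | h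
          · exfalso
            rw [hαG ξ h, hβG ξ h] at h4
            exact hirr _ h4
          · exact h
          · exfalso
            have h6 := h3 ζ h
            rw [hα, hβ] at h6
            exact hne' h6
        rw [h5, hα, hβ] at h4
        exact h4
      by_contra hcon
      push Not at hcon
      -- some value is frequent
      have hex : ∃ v₀, ∃ᶠ β in (cocountable : Filter I), e (x β) ζ = v₀ := by
        by_contra hnone
        push Not at hnone
        have h3 : ∀ᶠ β in (cocountable : Filter I), ∀ v₀ : ℕ, e (x β) ζ ≠ v₀ :=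
          eventually_countable_forall.2 hnone
        obtain ⟨β, hβ⟩ := h3.exists
        exact hβ _ rfl
      obtain ⟨v₀, hv₀⟩ := hex
      have hothers : ∀ v₁, v₁ ≠ v₀ → ∀ᶠ β in (cocountable : Filter I), e (x β) ζ ≠ v₁ := by
        intro v₁ hv₁
        by_contra hf
        have hf1 : ∃ᶠ β in (cocountable : Filter I), e (x β) ζ = v₁ := by
          rw [Filter.Frequently]
          exact hf
        exact hr _ _ (hcmp v₀ v₁ hv₁.symm hv₀ hf1) (hcmp v₁ v₀ hv₁ hf1 hv₀)
      have h3 : ∀ᶠ β in (cocountable : Filter I), ∀ v₁ : ℕ, v₁ ≠ v₀ → e (x β) ζ ≠ v₁ := by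
        rw [eventually_countable_forall]
        intro v₁
        by_cases h : v₁ = v₀
        · exact Filter.Eventually.of_forall fun β h' => absurd h h'
        · exact (hothers v₁ h).mono fun β hβ _ => hβ
      refine hcon v₀ (h3.mono fun β hβ => ?_)
      by_contra h
      exact hβ _ h rfl
  choose v hv using hstep
  have hv0 : ∀ ζ, v ζ ≠ 0 := by
    intro ζ h
    obtain ⟨β, h3, h4⟩ := ((hv ζ).and (hx ζ)).exists
    rw [h, h0] at h3
    exact absurd h4 (not_lt.mpr h3)
  -- some value is taken uncountably often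
  obtain ⟨k, hk⟩ : ∃ k, ¬ (v ⁻¹' {k}).Countable := by
    by_contra hall
    push Not at hall
    have h3 : (⋃ k, v ⁻¹' {k}).Countable := Set.countable_iUnion hall
    have h4 : (⋃ k, v ⁻¹' {k}) = Set.univ := by
      ext ζ; simp
    rw [h4] at h3
    exact Set.not_countable_univ h3
  have hinf : (v ⁻¹' {k}).Infinite := fun h => hk h.countable
  let g : ℕ ↪ (v ⁻¹' {k}) := hinf.natEmbedding
  have h3 : ∀ᶠ β in (cocountable : Filter I), ∀ i : ℕ, e (x β) (g i) = v (g i) :=
    eventually_countable_forall.2 fun i => hv _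
  obtain ⟨β, hβ⟩ := h3.exists
  have h4 : ∀ i : ℕ, ((g i : Ω)) ∈ {ξ | ξ < x β ∧ e (x β) ξ ≤ k} := by
    intro i
    have h5 := hβ i
    have h6 : v (g i) = k := (g i).2
    refine ⟨?_, by rw [h5, h6]⟩
    by_contra h7
    have h8 := (h0 (x β) (g i)).2 (not_lt.mp h7)
    rw [h5] at h8
    exact hv0 _ h8
  have h5 : (Set.range fun i : ℕ => ((g i : Ω))).Infinite :=
    Set.infinite_range_of_injective fun i j hij => g.injective (Subtype.ext hij)
  exact h5 ((h1 (x β) k).subset (by rintro _ ⟨i, rfl⟩; exact h4 i))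

/-- D1: every uncountable set contains a pair of colour one. -/
theorem D1 [Uncountable Ω] (hc : ∀ a : Ω, (Set.Iio a).Countable)
    {e : Ω → Ω → ℕ} (h0 : ∀ a ξ, e a ξ = 0 ↔ a ≤ ξ)
    (h1 : ∀ a k, {ξ | ξ < a ∧ e a ξ ≤ k}.Finite)
    {S : Set Ω} (hS : ¬ S.Countable) : ∃ a ∈ S, ∃ b ∈ S, a < b ∧ LL (· < ·) e a b := by
  classical
  by_contra hcon
  push Not at hcon
  have : Uncountable S := by
    rw [← not_countable_iff]
    intro h
    exact hS (Set.countable_coe_iff.mp h)
  have hx : ∀ γ, ∀ᶠ β : S in cocountable, γ < (β : Ω) := by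
    intro γ
    refine cocount_of_countable ?_
    have h3 : (Set.Iic γ).Countable := by
      rw [← Set.Iio_insert]
      exact (hc γ).insert γ
    have h4 : {β : S | ¬ γ < (β : Ω)} = Subtype.val ⁻¹' (Set.Iic γ) := by
      ext β; simp
    rw [h4]
    exact h3.preimage Subtype.val_injective
  refine no_mono hc h0 h1 (· > ·) (fun u v h h' => by omega) (fun s : S => (s : Ω)) hx ?_
  intro α
  refine (hx α).mono fun β hβ => ?_
  have h3 := hcon α α.2 β β.2 hβ
  rcases LL_total h0 hβ.ne with h4 | h4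
  · exact absurd h4 h3
  · obtain ⟨ξ, h5, h6⟩ := h4
    exact ⟨ξ, fun ζ hζ => (h5 ζ hζ).symm, h6⟩

/-- D0: colour zero simultaneously in all coordinates. -/
theorem D0 [Uncountable Ω] (hc : ∀ a : Ω, (Set.Iio a).Countable)
    {e : Ω → Ω → ℕ} (h0 : ∀ a ξ, e a ξ = 0 ↔ a ≤ ξ)
    (h1 : ∀ a k, {ξ | ξ < a ∧ e a ξ ≤ k}.Finite)
    (h2 : ∀ b a, a ≤ b → {ξ | ξ < a ∧ e a ξ ≠ e b ξ}.Finite)
    {I ι : Type} [Uncountable I] [Finite ι] (F : I → ι → Ω)
    (hF : ∀ i γ, ∀ᶠ β in cocountable, γ < F β i) :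
    ∃ α β, α ≠ β ∧ ∀ i, F α i < F β i ∧ LL (· < ·) e (F β i) (F α i) := by
  classical
  cases isEmpty_or_nonempty ι with
  | inl hι =>
    obtain ⟨α, β, hαβ⟩ := exists_pair_ne I
    exact ⟨α, β, hαβ, fun i => hι.elim i⟩
  | inr hι =>
    obtain ⟨i₀⟩ := hι
    choose n L hL hm hn using exists_code h0 h1 h2
    let C : I → (ι → ℕ × List (ℕ × ℕ)) := fun α i =>
      (n (F α i₀) (F α i), (L (F α i₀) (F α i)).map
        (fun ξ => (e (F α i₀) ξ, e (F α i) ξ)))
    obtain ⟨c, hcc⟩ : ∃ c, ¬ (C ⁻¹' {c}).Countable := by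
      by_contra hall
      push Not at hall
      have h3 : (⋃ c, C ⁻¹' {c}).Countable := Set.countable_iUnion hall
      have h4 : (⋃ c, C ⁻¹' {c}) = Set.univ := by
        ext ζ; simp
      rw [h4] at h3
      exact Set.not_countable_univ h3
    let I' := (C ⁻¹' {c} : Set I)
    have : Uncountable I' := by
      rw [← not_countable_iff]
      intro h
      exact hcc (Set.countable_coe_iff.mp h)
    have hF' : ∀ i γ, ∀ᶠ β : I' in cocountable, γ < F β i := by
      intro i γ
      refine cocount_of_countable ?_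
      have h3 := countable_of_cocount (hF i γ)
      have h4 : {β : I' | ¬ γ < F β i} = Subtype.val ⁻¹' {β : I | ¬ γ < F β i} := rfl
      rw [h4]
      exact h3.preimage Subtype.val_injective
    have hnm := no_mono hc h0 h1 (· < ·) (fun u v h h' => by omega)
      (fun α : I' => F α i₀) (hF' i₀)
    push Not at hnm
    obtain ⟨α, hα⟩ := hnm
    have hall : ∀ᶠ β : I' in cocountable, ∀ i, F α i < F β i :=
      eventually_countable_forall.2 fun i => hF' i _
    obtain ⟨β, hβ1, hβ2⟩ := ((show ∃ᶠ β : I' in cocountable,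
      ¬ LL (· < ·) e (F α i₀) (F β i₀) from hα).and_eventually hall).exists
    have hne : (F β i₀) ≠ (F α i₀) := (hβ2 i₀).ne'
    have hLL : LL (· < ·) e (F β i₀) (F α i₀) := by
      rcases LL_total h0 hne with h | h
      · exact h
      · exact absurd h hβ1
    refine ⟨α, β, ?_, fun i => ⟨hβ2 i, ?_⟩⟩
    · intro h
      exact hne (by rw [h])
    · have hCeq : C β = C α := by
        have h3 : C β = c := β.2
        have h4 : C α = c := α.2
        rw [h3, h4]
      have h5 := congrFun hCeq i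
      simp only [C, Prod.mk.injEq] at h5
      have hne' : (F β i) ≠ (F α i) := (hβ2 i).ne'
      have key := code_key h0 (hL (F β i₀) (F β i)) (hL (F α i₀) (F α i))
        (hm (F β i₀) (F β i)) (by rw [h5.1]; exact hm (F α i₀) (F α i))
        (hn (F β i₀) (F β i)) (by rw [h5.1]; exact hn (F α i₀) (F α i)) h5.2 hne hne'
      exact key.1 hLL

/-- D0 with possibly constant coordinates. -/
theorem D0plus [Uncountable Ω] (hc : ∀ a : Ω, (Set.Iio a).Countable)
    {e : Ω → Ω → ℕ} (h0 : ∀ a ξ, e a ξ = 0 ↔ a ≤ ξ)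
    (h1 : ∀ a k, {ξ | ξ < a ∧ e a ξ ≤ k}.Finite)
    (h2 : ∀ b a, a ≤ b → {ξ | ξ < a ∧ e a ξ ≠ e b ξ}.Finite)
    {J ι : Type} [Finite ι] (F : J → ι → Ω) (I : Set J) (hI : ¬ I.Countable) :
    ∃ α ∈ I, ∃ β ∈ I, α ≠ β ∧ ∀ i, F α i = F β i ∨
      (F α i < F β i ∧ LL (· < ·) e (F β i) (F α i)) := by
  classical
  have := Fintype.ofFinite ι
  suffices H : ∀ (S : Finset ι) (I : Set J), ¬ I.Countable →
      (∀ i, i ∉ S → ∀ α ∈ I, ∀ β ∈ I, F α i = F β i) →
      ∃ α ∈ I, ∃ β ∈ I, α ≠ β ∧ ∀ i, F α i = F β i ∨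
        (F α i < F β i ∧ LL (· < ·) e (F β i) (F α i)) from
    H Finset.univ I hI (fun i hi => absurd (Finset.mem_univ i) hi)
  intro S
  induction S using Finset.strongInduction with
  | H S IH =>
    intro I hI hconst
    by_cases hfib : ∃ i ∈ S, ∃ ζ, ¬ {α ∈ I | F α i = ζ}.Countable
    · obtain ⟨i, hi, ζ, hζ⟩ := hfib
      obtain ⟨α, hα, β, hβ, hne, hall⟩ := IH (S.erase i) (Finset.erase_ssubset hi)
        {α ∈ I | F α i = ζ} hζ (by
          intro j hj α hα β hβ
          by_cases hji : j = i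
          · subst hji; rw [hα.2, hβ.2]
          · exact hconst j (fun h => hj (Finset.mem_erase.mpr ⟨hji, h⟩)) α hα.1 β hβ.1)
      exact ⟨α, hα.1, β, hβ.1, hne, hall⟩
    · push Not at hfib
      have : Uncountable I := by
        rw [← not_countable_iff]
        intro h
        exact hI (Set.countable_coe_iff.mp h)
      obtain ⟨α, β, hne, hall⟩ := D0 hc h0 h1 h2 (fun (α : I) (i : S) => F α i) (by
        intro i γ
        refine cocount_of_countable ?_
        have h3 : (Set.Iic γ).Countable := by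
          rw [← Set.Iio_insert]
          exact (hc γ).insert γ
        have h4 : (⋃ ζ ∈ Set.Iic γ, {α ∈ I | F α i = ζ}).Countable :=
          h3.biUnion fun ζ _ => hfib i i.2 ζ
        have h5 : {β : I | ¬ γ < F β i} ⊆
            Subtype.val ⁻¹' (⋃ ζ ∈ Set.Iic γ, {α ∈ I | F α i = ζ}) := by
          intro β hβ
          refine Set.mem_iUnion₂.mpr ⟨F β i, not_lt.mp hβ, β.2, rfl⟩
        exact (h4.preimage Subtype.val_injective).mono h5)
      refine ⟨α, α.2, β, β.2, fun h => hne (Subtype.ext h), fun i => ?_⟩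
      by_cases hi : i ∈ S
      · right; exact hall ⟨i, hi⟩
      · left; exact hconst i hi α α.2 β β.2

/-- Summary: the colouring used in the construction. `Z a b` is symmetric; pairs with `Z` have
colour one. -/
theorem exists_colouring [Uncountable Ω] (hc : ∀ a : Ω, (Set.Iio a).Countable) :
    ∃ Z : Ω → Ω → Prop,
      (∀ S : Set Ω, ¬ S.Countable → ∃ a ∈ S, ∃ b ∈ S, a ≠ b ∧ Z a b) ∧
      (∀ (J ι : Type) (_ : Finite ι) (F : J → ι → Ω) (I : Set J), ¬ I.Countable →
        ∃ α ∈ I, ∃ β ∈ I, α ≠ β ∧ ∀ i, F α i = F β i ∨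
          (¬ Z (F α i) (F β i) ∧ ¬ Z (F β i) (F α i))) := by
  obtain ⟨e, h0, h1, h2⟩ := exists_coherent hc
  refine ⟨fun a b => a < b ∧ LL (· < ·) e a b, ?_, ?_⟩
  · intro S hS
    obtain ⟨a, ha, b, hb, hab, h⟩ := D1 hc h0 h1 hS
    exact ⟨a, ha, b, hb, hab.ne, hab, h⟩
  · intro J ι _ F I hI
    obtain ⟨α, hα, β, hβ, hne, hall⟩ := D0plus hc h0 h1 h2 F I hI
    refine ⟨α, hα, β, hβ, hne, fun i => ?_⟩
    rcases hall i with h | h
    · left; exact h
    · right
      exact ⟨fun h' => LL_asymm h.2 h'.2, fun h' => absurd h.1 (not_lt.mpr h'.1.le)⟩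

end Pool.Agent.Helper627_Conc
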