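import Mathlib

open Set Filter

namespace Pool.Agent.Helper627_Conc

/-- index set of the coordinates: cylinders and pairs -/
abbrev Idx (Ω : Type) : Type := (ℕ × Ω) ⊕ (Ω × Ω)

section fn

variable {Ω : Type} (r : Ω → ℕ → Bool) (Z : Ω → Ω → Prop)

open Classical in
/-- indicator of the cylinder of length `n` around `t` -/
noncomputable def chi (n : ℕ) (t ζ : Ω) : ℝ := if ∀ k < n, r ζ k = r t k then 1 else 0

/-- level of the first difference -/
noncomputable def lev (ξ η : Ω) : ℕ := sInf {k | r ξ k ≠ r η k}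

open Classical in
/-- indicator of equality -/
noncomputable def ind (a b : Ω) : ℝ := if a = b then 1 else 0

open Classical in
/-- the coordinate functionals on the basis vectors -/
noncomputable def phi (j : Idx Ω) (ζ : Ω) : ℝ :=
  match j with
  | Sum.inl p => chi r p.1 p.2 ζ
  | Sum.inr p => if p.1 ≠ p.2 ∧ Z p.1 p.2 then
      (1/2) * (ind ζ p.1 - ind ζ p.2) +
        (1/4) * (chi r (lev r p.1 p.2 + 1) p.1 ζ - chi r (lev r p.1 p.2 + 1) p.2 ζ) else 0

theorem chi_cases (n : ℕ) (t ζ : Ω) :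
    (chi r n t ζ = 1 ∧ ∀ k < n, r ζ k = r t k) ∨ (chi r n t ζ = 0 ∧ ¬ ∀ k < n, r ζ k = r t k) := by
  unfold chi
  by_cases h : ∀ k < n, r ζ k = r t k
  · left; exact ⟨if_pos h, h⟩
  · right; exact ⟨if_neg h, h⟩

theorem ind_cases (a b : Ω) : (ind a b = 1 ∧ a = b) ∨ (ind a b = 0 ∧ a ≠ b) := by
  unfold ind
  by_cases h : a = b
  · left; exact ⟨if_pos h, h⟩
  · right; exact ⟨if_neg h, h⟩

theorem lev_spec (hr : Function.Injective r) {ξ η : Ω} (h : ξ ≠ η) :
    r ξ (lev r ξ η) ≠ r η (lev r ξ η) ∧ ∀ k < lev r ξ η, r ξ k = r η k := by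
  have hne : {k | r ξ k ≠ r η k}.Nonempty := by
    by_contra hemp
    rw [Set.not_nonempty_iff_eq_empty] at hemp
    apply h
    apply hr
    funext k
    by_contra hk
    have : k ∈ {k | r ξ k ≠ r η k} := hk
    rw [hemp] at this
    exact this
  refine ⟨Nat.sInf_mem hne, fun k hk => ?_⟩
  by_contra hk'
  exact absurd (Nat.sInf_le (show k ∈ {k | r ξ k ≠ r η k} from hk')) (not_le.mpr hk)

/-- values of a pair functional -/
theorem phi_pair_cases (hr : Function.Injective r) {ξ η : Ω} (h : ξ ≠ η) (hZ : Z ξ η) (ζ : Ω) :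
    (ζ = ξ ∧ phi r Z (Sum.inr (ξ, η)) ζ = 3/4) ∨ (ζ = η ∧ phi r Z (Sum.inr (ξ, η)) ζ = -(3/4)) ∨
      (|phi r Z (Sum.inr (ξ, η)) ζ| ≤ 1/4) := by
  obtain ⟨hl1, hl2⟩ := lev_spec r hr h
  have hphi : phi r Z (Sum.inr (ξ, η)) ζ = (1/2) * (ind ζ ξ - ind ζ η) +
        (1/4) * (chi r (lev r ξ η + 1) ξ ζ - chi r (lev r ξ η + 1) η ζ) := by
    simp only [phi]
    exact if_pos ⟨h, hZ⟩
  rw [hphi]
  rcases ind_cases ζ ξ with ⟨h1, h1'⟩ | ⟨h1, h1'⟩
  · left
    subst h1'
    refine ⟨rfl, ?_⟩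
    rcases ind_cases ζ η with ⟨h2, h2'⟩ | ⟨h2, h2'⟩
    · exact absurd h2' h
    rcases chi_cases r (lev r ζ η + 1) ζ ζ with ⟨h3, h3'⟩ | ⟨h3, h3'⟩
    · rcases chi_cases r (lev r ζ η + 1) η ζ with ⟨h4, h4'⟩ | ⟨h4, h4'⟩
      · exact absurd (h4' _ (Nat.lt_succ_self _)) hl1
      · rw [h1, h2, h3, h4]; norm_num
    · exact absurd (fun k _ => rfl) h3'
  · rcases ind_cases ζ η with ⟨h2, h2'⟩ | ⟨h2, h2'⟩
    · right; left
      subst h2'
      refine ⟨rfl, ?_⟩
      rcases chi_cases r (lev r ξ ζ + 1) ζ ζ with ⟨h3, h3'⟩ | ⟨h3, h3'⟩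
      · rcases chi_cases r (lev r ξ ζ + 1) ξ ζ with ⟨h4, h4'⟩ | ⟨h4, h4'⟩
        · exact absurd (h4' _ (Nat.lt_succ_self _)).symm hl1
        · rw [h1, h2, h3, h4]; norm_num
      · exact absurd (fun k _ => rfl) h3'
    · right; right
      rw [h1, h2]
      rcases chi_cases r (lev r ξ η + 1) ξ ζ with ⟨h3, _⟩ | ⟨h3, _⟩ <;>
      rcases chi_cases r (lev r ξ η + 1) η ζ with ⟨h4, _⟩ | ⟨h4, _⟩ <;>
      rw [h3, h4] <;> norm_num [abs_le]

theorem phi_pair_zero {ξ η : Ω} (h : ¬ (ξ ≠ η ∧ Z ξ η)) (ζ : Ω) :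
    phi r Z (Sum.inr (ξ, η)) ζ = 0 := by
  simp only [phi]
  exact if_neg h

theorem abs_phi_le (hr : Function.Injective r) (j : Idx Ω) (ζ : Ω) : |phi r Z j ζ| ≤ 1 := by
  rcases j with ⟨n, t⟩ | ⟨ξ, η⟩
  · rcases chi_cases r n t ζ with ⟨h, _⟩ | ⟨h, _⟩ <;> simp [phi, h]
  · by_cases h : ξ ≠ η ∧ Z ξ η
    · rcases phi_pair_cases r Z hr h.1 h.2 ζ with ⟨_, h1⟩ | ⟨_, h1⟩ | h1
      · rw [h1]; norm_num [abs_le]
      · rw [h1]; norm_num [abs_le]
      · linarith
    · rw [phi_pair_zero r Z h]; norm_num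

theorem sum_le_one_of_unique {ι : Type} [Fintype ι] (D : ι → ℝ) (h1 : ∀ i, D i ≤ 1)
    (hu : ∀ i j, D i ≠ 0 → D j ≠ 0 → i = j) : ∑ i, D i ≤ 1 := by
  classical
  by_cases h : ∃ i, D i ≠ 0
  · obtain ⟨i₀, hi₀⟩ := h
    rw [Finset.sum_eq_single i₀]
    · exact h1 i₀
    · intro b _ hb
      by_contra hb'
      exact hb (hu b i₀ hb' hi₀)
    · intro h; exact absurd (Finset.mem_univ _) h
  · push Not at h
    rw [Finset.sum_eq_zero (fun i _ => h i)]
    norm_num

section family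

variable {ι : Type} [Fintype ι] {F G : ι → Ω} {m : ℕ}

theorem chi_eq (hFG : ∀ i, ∀ k < m, r (F i) k = r (G i) k) {n : ℕ} (hn : n ≤ m) (t : Ω) (i : ι) :
    chi r n t (F i) = chi r n t (G i) := by
  have hiff : (∀ k < n, r (F i) k = r t k) ↔ (∀ k < n, r (G i) k = r t k) := by
    constructor
    · intro h k hk; rw [← hFG i k (hk.trans_le hn)]; exact h k hk
    · intro h k hk; rw [hFG i k (hk.trans_le hn)]; exact h k hk
  rcases chi_cases r n t (F i) with ⟨h1, h1'⟩ | ⟨h1, h1'⟩ <;>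
  rcases chi_cases r n t (G i) with ⟨h2, h2'⟩ | ⟨h2, h2'⟩
  · rw [h1, h2]
  · exact absurd (hiff.1 h1') h2'
  · exact absurd (hiff.2 h2') h1'
  · rw [h1, h2]

theorem uniq (hsep : ∀ i j, i ≠ j → ∃ k < m, r (F i) k ≠ r (F j) k) {t : Ω} {i j : ι}
    (hi : ∀ k < m, r (F i) k = r t k) (hj : ∀ k < m, r (F j) k = r t k) : i = j := by
  by_contra hij
  obtain ⟨k, hk, hne⟩ := hsep i j hij
  exact hne ((hi k hk).trans (hj k hk).symm)

theorem sum_chi (hFG : ∀ i, ∀ k < m, r (F i) k = r (G i) k)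
    (hsep : ∀ i j, i ≠ j → ∃ k < m, r (F i) k ≠ r (F j) k) (n : ℕ) (t : Ω) :
    ∑ i, |chi r n t (F i) - chi r n t (G i)| ≤ 1 := by
  rcases le_or_gt n m with hn | hn
  · rw [Finset.sum_eq_zero]
    · norm_num
    · intro i _
      rw [chi_eq r hFG hn t i, sub_self, abs_zero]
  · refine sum_le_one_of_unique _ (fun i => ?_) ?_
    · rcases chi_cases r n t (F i) with ⟨h1, _⟩ | ⟨h1, _⟩ <;>
      rcases chi_cases r n t (G i) with ⟨h2, _⟩ | ⟨h2, _⟩ <;> rw [h1, h2] <;> norm_num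
    · have key : ∀ i, |chi r n t (F i) - chi r n t (G i)| ≠ 0 → ∀ k < m, r (F i) k = r t k := by
        intro i hi k hk
        rcases chi_cases r n t (F i) with ⟨h1, h1'⟩ | ⟨h1, h1'⟩
        · exact h1' k (hk.trans hn)
        · rcases chi_cases r n t (G i) with ⟨h2, h2'⟩ | ⟨h2, h2'⟩
          · rw [hFG i k hk]; exact h2' k (hk.trans hn)
          · rw [h1, h2] at hi; simp at hi
      intro i j hi hj
      exact uniq r hsep (key i hi) (key j hj)

theorem sum_ind (hFG : ∀ i, ∀ k < m, r (F i) k = r (G i) k)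
    (hsep : ∀ i j, i ≠ j → ∃ k < m, r (F i) k ≠ r (F j) k) (ξ : Ω) :
    ∑ i, |ind (F i) ξ - ind (G i) ξ| ≤ 1 := by
  refine sum_le_one_of_unique _ (fun i => ?_) ?_
  · rcases ind_cases (F i) ξ with ⟨h1, _⟩ | ⟨h1, _⟩ <;>
    rcases ind_cases (G i) ξ with ⟨h2, _⟩ | ⟨h2, _⟩ <;> rw [h1, h2] <;> norm_num
  · have key : ∀ i, |ind (F i) ξ - ind (G i) ξ| ≠ 0 → ∀ k < m, r (F i) k = r ξ k := by
      intro i hi k hk
      rcases ind_cases (F i) ξ with ⟨h1, h1'⟩ | ⟨h1, h1'⟩
      · rw [h1']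
      · rcases ind_cases (G i) ξ with ⟨h2, h2'⟩ | ⟨h2, h2'⟩
        · rw [hFG i k hk, h2']
        · rw [h1, h2] at hi; simp at hi
    intro i j hi hj
    exact uniq r hsep (key i hi) (key j hj)

theorem sum_phi (hr : Function.Injective r) (hFG : ∀ i, ∀ k < m, r (F i) k = r (G i) k)
    (hsep : ∀ i j, i ≠ j → ∃ k < m, r (F i) k ≠ r (F j) k)
    (hcol : ∀ i, F i = G i ∨ (¬ Z (F i) (G i) ∧ ¬ Z (G i) (F i))) (j : Idx Ω) :
    ∑ i, |phi r Z j (F i) - phi r Z j (G i)| ≤ 1 := by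
  rcases j with ⟨n, t⟩ | ⟨ξ, η⟩
  · exact sum_chi r hFG hsep n t
  · by_cases h : ξ ≠ η ∧ Z ξ η
    swap
    · rw [Finset.sum_eq_zero]
      · norm_num
      · intro i _
        rw [phi_pair_zero r Z h, phi_pair_zero r Z h, sub_self, abs_zero]
    · obtain ⟨hl1, hl2⟩ := lev_spec r hr h.1
      have hphi : ∀ ζ, phi r Z (Sum.inr (ξ, η)) ζ = (1/2) * (ind ζ ξ - ind ζ η) +
          (1/4) * (chi r (lev r ξ η + 1) ξ ζ - chi r (lev r ξ η + 1) η ζ) := by
        intro ζ
        simp only [phi]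
        exact if_pos h
      rcases Nat.lt_or_ge (lev r ξ η) m with hlm | hlm
      · -- low level
        have hle : ∀ i, |phi r Z (Sum.inr (ξ, η)) (F i) - phi r Z (Sum.inr (ξ, η)) (G i)| ≤
            (1/2) * |ind (F i) ξ - ind (G i) ξ| + (1/2) * |ind (F i) η - ind (G i) η| := by
          intro i
          rw [hphi, hphi, chi_eq r hFG hlm ξ i, chi_eq r hFG hlm η i]
          have e1 : (1/2) * (ind (F i) ξ - ind (F i) η) +
              (1/4) * (chi r (lev r ξ η + 1) ξ (G i) - chi r (lev r ξ η + 1) η (G i)) -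
              ((1/2) * (ind (G i) ξ - ind (G i) η) +
              (1/4) * (chi r (lev r ξ η + 1) ξ (G i) - chi r (lev r ξ η + 1) η (G i))) =
              (1/2) * (ind (F i) ξ - ind (G i) ξ) - (1/2) * (ind (F i) η - ind (G i) η) := by ring
          rw [e1]
          refine (abs_sub _ _).trans ?_
          rw [abs_mul, abs_mul]
          norm_num
        refine (Finset.sum_le_sum fun i _ => hle i).trans ?_
        rw [Finset.sum_add_distrib, ← Finset.mul_sum, ← Finset.mul_sum]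
        have h1 := sum_ind r hFG hsep ξ
        have h2 := sum_ind r hFG hsep η
        linarith
      · -- high level
        refine sum_le_one_of_unique _ (fun i => ?_) ?_
        · rcases phi_pair_cases r Z hr h.1 h.2 (F i) with ⟨h1, h1'⟩ | ⟨h1, h1'⟩ | h1' <;>
          rcases phi_pair_cases r Z hr h.1 h.2 (G i) with ⟨h2, h2'⟩ | ⟨h2, h2'⟩ | h2'
          · rw [h1', h2']; norm_num
          · exfalso
            rcases hcol i with h3 | h3
            · rw [h1, h2] at h3; exact h.1 h3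
            · rw [h1, h2] at h3; exact h3.1 h.2
          · rw [h1']
            rw [abs_le] at h2' ⊢
            constructor <;> linarith [h2'.1, h2'.2]
          · exfalso
            rcases hcol i with h3 | h3
            · rw [h1, h2] at h3; exact h.1 h3.symm
            · rw [h1, h2] at h3; exact h3.2 h.2
          · rw [h1', h2']; norm_num
          · rw [h1']
            rw [abs_le] at h2' ⊢
            constructor <;> linarith [h2'.1, h2'.2]
          · rw [h2']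
            rw [abs_le] at h1' ⊢
            constructor <;> linarith [h1'.1, h1'.2]
          · rw [h2']
            rw [abs_le] at h1' ⊢
            constructor <;> linarith [h1'.1, h1'.2]
          · rw [abs_le] at h1' h2' ⊢
            constructor <;> linarith [h1'.1, h1'.2, h2'.1, h2'.2]
        · have key0 : ∀ ζ, phi r Z (Sum.inr (ξ, η)) ζ ≠ 0 → ∀ k < m, r ζ k = r ξ k := by
            intro ζ hζ k hk
            have hk' : k < lev r ξ η := hk.trans_le hlm
            rw [hphi] at hζ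
            rcases ind_cases ζ ξ with ⟨h1, h1'⟩ | ⟨h1, h1'⟩
            · rw [h1']
            rcases ind_cases ζ η with ⟨h2, h2'⟩ | ⟨h2, h2'⟩
            · rw [h2']; exact (hl2 k hk').symm
            rcases chi_cases r (lev r ξ η + 1) ξ ζ with ⟨h3, h3'⟩ | ⟨h3, h3'⟩
            · exact h3' k (hk'.trans (Nat.lt_succ_self _))
            rcases chi_cases r (lev r ξ η + 1) η ζ with ⟨h4, h4'⟩ | ⟨h4, h4'⟩
            · rw [h4' k (hk'.trans (Nat.lt_succ_self _))]; exact (hl2 k hk').symm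
            rw [h1, h2, h3, h4] at hζ
            norm_num at hζ
          have key : ∀ i, |phi r Z (Sum.inr (ξ, η)) (F i) - phi r Z (Sum.inr (ξ, η)) (G i)| ≠ 0 →
              ∀ k < m, r (F i) k = r ξ k := by
            intro i hi k hk
            by_cases h1 : phi r Z (Sum.inr (ξ, η)) (F i) = 0
            · by_cases h2 : phi r Z (Sum.inr (ξ, η)) (G i) = 0
              · rw [h1, h2] at hi; simp at hi
              · rw [hFG i k hk]; exact key0 _ h2 k hk
            · exact key0 _ h1 k hk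
          intro i j hi hj
          exact uniq r hsep (key i hi) (key j hj)

end family

end fn

end Pool.Agent.Helper627_Conc
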