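import Mathlib
import Pool.Agent.Helper627_Conc.Fn

open scoped ENNReal
open Set Filter

namespace Pool.Agent.Helper627_Conc

section sp

variable (𝕜 : Type) [RCLike 𝕜] {Ω : Type} (r : Ω → ℕ → Bool) (Z : Ω → Ω → Prop)

abbrev UU (Ω : Type) : Type := lp (fun _ : Idx Ω => 𝕜) ∞
abbrev VV (Ω : Type) : Type := lp (fun _ : ℕ × Ω => 𝕜) ∞
abbrev EE (Ω : Type) : Type := WithLp 1 (UU 𝕜 Ω × VV 𝕜 Ω)

noncomputable def psi (p : ℕ × Ω) (ζ : Ω) : ℝ := (1/4) * (1/2)^p.1 * chi r p.1 p.2 ζ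

theorem abs_psi_le (p : ℕ × Ω) (ζ : Ω) : |psi r p ζ| ≤ 1/4 := by
  unfold psi
  have h1 : (1/2 : ℝ)^p.1 ≤ 1 := pow_le_one₀ (by norm_num) (by norm_num)
  have h2 : (0:ℝ) ≤ (1/2 : ℝ)^p.1 := by positivity
  rcases chi_cases r p.1 p.2 ζ with ⟨h, _⟩ | ⟨h, _⟩
  · rw [h, mul_one, abs_of_nonneg (by positivity)]; linarith
  · rw [h]; norm_num

noncomputable def zu (hr : Function.Injective r) (ζ : Ω) : UU 𝕜 Ω :=
  ⟨fun j => ((phi r Z j ζ : ℝ) : 𝕜), memℓp_infty ⟨1, by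
    rintro _ ⟨j, rfl⟩
    show ‖((phi r Z j ζ : ℝ) : 𝕜)‖ ≤ 1
    rw [RCLike.norm_ofReal]
    exact abs_phi_le r Z hr j ζ⟩⟩

noncomputable def zv (ζ : Ω) : VV 𝕜 Ω :=
  ⟨fun p => ((psi r p ζ : ℝ) : 𝕜), memℓp_infty ⟨1/4, by
    rintro _ ⟨j, rfl⟩
    show ‖((psi r j ζ : ℝ) : 𝕜)‖ ≤ 1/4
    rw [RCLike.norm_ofReal]
    exact abs_psi_le r j ζ⟩⟩

noncomputable def zz (hr : Function.Injective r) (ζ : Ω) : EE 𝕜 Ω :=
  WithLp.toLp 1 (zu 𝕜 r Z hr ζ, zv 𝕜 r ζ)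

variable {𝕜}

theorem norm_EE (w : EE 𝕜 Ω) : ‖w‖ = ‖w.fst‖ + ‖w.snd‖ := WithLp.prod_norm_eq_of_L1 w

/-- coordinate of the first component -/
noncomputable def cu (j : Idx Ω) : EE 𝕜 Ω →L[𝕜] 𝕜 :=
  LinearMap.mkContinuous
    { toFun := fun w => (w.fst : Idx Ω → 𝕜) j
      map_add' := fun x y => by simp
      map_smul' := fun c x => by simp } 1 (fun w => by
    have h1 : ‖(w.fst : Idx Ω → 𝕜) j‖ ≤ ‖w.fst‖ := lp.norm_apply_le_norm (by simp) w.fst j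
    have h2 : ‖w.fst‖ ≤ ‖w‖ := by rw [norm_EE]; linarith [norm_nonneg w.snd]
    rw [one_mul]
    exact h1.trans h2)

/-- coordinate of the second component -/
noncomputable def cv (j : ℕ × Ω) : EE 𝕜 Ω →L[𝕜] 𝕜 :=
  LinearMap.mkContinuous
    { toFun := fun w => (w.snd : ℕ × Ω → 𝕜) j
      map_add' := fun x y => by simp
      map_smul' := fun c x => by simp } 1 (fun w => by
    have h1 : ‖(w.snd : ℕ × Ω → 𝕜) j‖ ≤ ‖w.snd‖ := lp.norm_apply_le_norm (by simp) w.snd j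
    have h2 : ‖w.snd‖ ≤ ‖w‖ := by rw [norm_EE]; linarith [norm_nonneg w.fst]
    rw [one_mul]
    exact h1.trans h2)

theorem cu_apply (j : Idx Ω) (w : EE 𝕜 Ω) : cu j w = (w.fst : Idx Ω → 𝕜) j := rfl
theorem cv_apply (j : ℕ × Ω) (w : EE 𝕜 Ω) : cv j w = (w.snd : ℕ × Ω → 𝕜) j := rfl

theorem norm_cu_le (j : Idx Ω) (w : EE 𝕜 Ω) : ‖cu j w‖ ≤ ‖w.fst‖ :=
  lp.norm_apply_le_norm (by simp) w.fst j
theorem norm_cv_le (j : ℕ × Ω) (w : EE 𝕜 Ω) : ‖cv j w‖ ≤ ‖w.snd‖ :=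
  lp.norm_apply_le_norm (by simp) w.snd j

theorem norm_fst_le_norm (w : EE 𝕜 Ω) : ‖w.fst‖ ≤ ‖w‖ := by
  rw [norm_EE]; linarith [norm_nonneg w.snd]

theorem norm_fst_le {w : EE 𝕜 Ω} {C : ℝ} (hC : 0 ≤ C) (h : ∀ j, ‖cu j w‖ ≤ C) : ‖w.fst‖ ≤ C :=
  lp.norm_le_of_forall_le hC h
theorem norm_snd_le {w : EE 𝕜 Ω} {C : ℝ} (hC : 0 ≤ C) (h : ∀ j, ‖cv j w‖ ≤ C) : ‖w.snd‖ ≤ C :=
  lp.norm_le_of_forall_le hC h

theorem cu_zz (hr : Function.Injective r) (j : Idx Ω) (ζ : Ω) :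
    cu j (zz 𝕜 r Z hr ζ) = ((phi r Z j ζ : ℝ) : 𝕜) := rfl
theorem cv_zz (hr : Function.Injective r) (j : ℕ × Ω) (ζ : Ω) :
    cv j (zz 𝕜 r Z hr ζ) = ((psi r j ζ : ℝ) : 𝕜) := rfl

theorem norm_zz (hr : Function.Injective r) (ζ : Ω) : ‖zz 𝕜 r Z hr ζ‖ = 5/4 := by
  rw [norm_EE]
  have h1 : ‖(zz 𝕜 r Z hr ζ).fst‖ = 1 := by
    apply le_antisymm
    · refine norm_fst_le zero_le_one fun j => ?_
      rw [cu_zz, RCLike.norm_ofReal]; exact abs_phi_le r Z hr j ζ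
    · have h2 := norm_cu_le (Sum.inl (0, ζ)) (zz 𝕜 r Z hr ζ)
      rw [cu_zz, RCLike.norm_ofReal] at h2
      have h3 : phi r Z (Sum.inl (0, ζ)) ζ = 1 := by
        rcases chi_cases r 0 ζ ζ with ⟨h, _⟩ | ⟨_, h⟩
        · exact h
        · exact absurd (fun k _ => rfl) h
      rw [h3] at h2
      simpa using h2
  have h2 : ‖(zz 𝕜 r Z hr ζ).snd‖ = 1/4 := by
    apply le_antisymm
    · refine norm_snd_le (by norm_num) fun j => ?_
      rw [cv_zz, RCLike.norm_ofReal]; exact abs_psi_le r j ζ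
    · have h2 := norm_cv_le (0, ζ) (zz 𝕜 r Z hr ζ)
      rw [cv_zz, RCLike.norm_ofReal] at h2
      have h3 : psi r (0, ζ) ζ = 1/4 := by
        unfold psi
        rcases chi_cases r 0 ζ ζ with ⟨h, _⟩ | ⟨_, h⟩
        · simp only [h]; norm_num
        · exact absurd (fun k _ => rfl) h
      rw [h3] at h2
      have h4 : |(1/4 : ℝ)| = 1/4 := abs_of_pos (by norm_num)
      rw [h4] at h2
      exact h2
  rw [h1, h2]; norm_num

/-- pairs of colour one are far apart -/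
theorem far (hr : Function.Injective r) {ξ η : Ω} (h : ξ ≠ η) (hZ : Z ξ η) :
    3/2 ≤ ‖zz 𝕜 r Z hr ξ - zz 𝕜 r Z hr η‖ := by
  have h1 := (norm_cu_le (Sum.inr (ξ, η)) (zz 𝕜 r Z hr ξ - zz 𝕜 r Z hr η)).trans
    (norm_fst_le_norm _)
  rw [map_sub, cu_zz, cu_zz, ← RCLike.ofReal_sub, RCLike.norm_ofReal] at h1
  have h2 : phi r Z (Sum.inr (ξ, η)) ξ = 3/4 := by
    rcases phi_pair_cases r Z hr h hZ ξ with ⟨_, h2⟩ | ⟨h2, _⟩ | h2
    · exact h2
    · exact absurd h2 h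
    · exfalso
      obtain ⟨hl1, _⟩ := lev_spec r hr h
      have hphi : phi r Z (Sum.inr (ξ, η)) ξ = (1/2) * (ind ξ ξ - ind ξ η) +
          (1/4) * (chi r (lev r ξ η + 1) ξ ξ - chi r (lev r ξ η + 1) η ξ) := by
        simp only [phi]
        exact if_pos ⟨h, hZ⟩
      rw [hphi] at h2
      rcases ind_cases ξ ξ with ⟨h3, _⟩ | ⟨_, h3⟩
      · rcases ind_cases ξ η with ⟨_, h4⟩ | ⟨h4, _⟩
        · exact h h4
        · rw [h3, h4] at h2
          rcases chi_cases r (lev r ξ η + 1) ξ ξ with ⟨h5, _⟩ | ⟨_, h5⟩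
          · rcases chi_cases r (lev r ξ η + 1) η ξ with ⟨h6, _⟩ | ⟨h6, _⟩ <;>
            rw [h5, h6] at h2 <;> norm_num [abs_le] at h2
          · exact h5 (fun k _ => rfl)
      · exact h3 rfl
  have h3 : phi r Z (Sum.inr (ξ, η)) η = -(3/4) := by
    rcases phi_pair_cases r Z hr h hZ η with ⟨h2, _⟩ | ⟨_, h2⟩ | h2
    · exact absurd h2.symm h
    · exact h2
    · exfalso
      have hphi : phi r Z (Sum.inr (ξ, η)) η = (1/2) * (ind η ξ - ind η η) +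
          (1/4) * (chi r (lev r ξ η + 1) ξ η - chi r (lev r ξ η + 1) η η) := by
        simp only [phi]
        exact if_pos ⟨h, hZ⟩
      rw [hphi] at h2
      rcases ind_cases η η with ⟨h3, _⟩ | ⟨_, h3⟩
      · rcases ind_cases η ξ with ⟨_, h4⟩ | ⟨h4, _⟩
        · exact h h4.symm
        · rw [h3, h4] at h2
          rcases chi_cases r (lev r ξ η + 1) η η with ⟨h5, _⟩ | ⟨_, h5⟩
          · rcases chi_cases r (lev r ξ η + 1) ξ η with ⟨h6, _⟩ | ⟨h6, _⟩ <;>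
            rw [h5, h6] at h2 <;> norm_num [abs_le] at h2
          · exact h5 (fun k _ => rfl)
      · exact h3 rfl
  rw [h2, h3] at h1
  have h4 : |(3/4 : ℝ) - -(3/4)| = 3/2 := by norm_num [abs_of_pos]
  rw [h4] at h1
  exact h1

/-- all basis vectors are one apart -/
theorem one_apart (hr : Function.Injective r) {ξ η : Ω} (h : ξ ≠ η) :
    1 ≤ ‖zz 𝕜 r Z hr ξ - zz 𝕜 r Z hr η‖ := by
  have h1 := (norm_cu_le (Sum.inl (lev r ξ η + 1, ξ)) (zz 𝕜 r Z hr ξ - zz 𝕜 r Z hr η)).trans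
    (norm_fst_le_norm _)
  rw [map_sub, cu_zz, cu_zz, ← RCLike.ofReal_sub, RCLike.norm_ofReal] at h1
  obtain ⟨hl1, _⟩ := lev_spec r hr h
  have h2 : phi r Z (Sum.inl (lev r ξ η + 1, ξ)) ξ = 1 := by
    rcases chi_cases r (lev r ξ η + 1) ξ ξ with ⟨h, _⟩ | ⟨_, h⟩
    · exact h
    · exact absurd (fun k _ => rfl) h
  have h3 : phi r Z (Sum.inl (lev r ξ η + 1, ξ)) η = 0 := by
    rcases chi_cases r (lev r ξ η + 1) ξ η with ⟨_, h⟩ | ⟨h, _⟩
    · exact absurd (h _ (Nat.lt_succ_self _)).symm hl1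
    · exact h
  rw [h2, h3] at h1
  simpa using h1

section family

variable {ι : Type} [Fintype ι] {F G : ι → Ω} {m : ℕ}

theorem est1 (hr : Function.Injective r) (hFG : ∀ i, ∀ k < m, r (F i) k = r (G i) k)
    (hsep : ∀ i j, i ≠ j → ∃ k < m, r (F i) k ≠ r (F j) k)
    (hcol : ∀ i, F i = G i ∨ (¬ Z (F i) (G i) ∧ ¬ Z (G i) (F i))) (a : ι → 𝕜) {A : ℝ}
    (hA0 : 0 ≤ A) (hA : ∀ i, ‖a i‖ ≤ A) :
    ‖∑ i, a i • (zz 𝕜 r Z hr (F i) - zz 𝕜 r Z hr (G i))‖ ≤ A + (1/4) * (1/2)^m * A := by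
  rw [norm_EE]
  refine add_le_add ?_ ?_
  · refine norm_fst_le hA0 fun j => ?_
    rw [map_sum]
    refine (norm_sum_le _ _).trans ?_
    have h1 : ∀ i, ‖cu j (a i • (zz 𝕜 r Z hr (F i) - zz 𝕜 r Z hr (G i)))‖ ≤
        A * |phi r Z j (F i) - phi r Z j (G i)| := by
      intro i
      rw [map_smul, map_sub, cu_zz, cu_zz, smul_eq_mul, norm_mul, ← RCLike.ofReal_sub,
        RCLike.norm_ofReal]
      exact mul_le_mul_of_nonneg_right (hA i) (abs_nonneg _)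
    refine (Finset.sum_le_sum fun i _ => h1 i).trans ?_
    rw [← Finset.mul_sum]
    calc A * ∑ i, |phi r Z j (F i) - phi r Z j (G i)| ≤ A * 1 :=
          mul_le_mul_of_nonneg_left (sum_phi r Z hr hFG hsep hcol j) hA0
      _ = A := mul_one A
  · refine norm_snd_le (by positivity) fun p => ?_
    rw [map_sum]
    refine (norm_sum_le _ _).trans ?_
    have h1 : ∀ i, ‖cv p (a i • (zz 𝕜 r Z hr (F i) - zz 𝕜 r Z hr (G i)))‖ ≤
        (A * ((1/4) * (1/2)^p.1)) * |chi r p.1 p.2 (F i) - chi r p.1 p.2 (G i)| := by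
      intro i
      rw [map_smul, map_sub, cv_zz, cv_zz, smul_eq_mul, norm_mul, ← RCLike.ofReal_sub,
        RCLike.norm_ofReal]
      have h2 : psi r p (F i) - psi r p (G i) =
          ((1/4) * (1/2)^p.1) * (chi r p.1 p.2 (F i) - chi r p.1 p.2 (G i)) := by
        unfold psi; ring
      rw [h2, abs_mul, abs_of_nonneg (show (0:ℝ) ≤ (1/4) * (1/2)^p.1 by positivity)]
      have h3 : (0:ℝ) ≤ ((1/4) * (1/2)^p.1) * |chi r p.1 p.2 (F i) - chi r p.1 p.2 (G i)| := by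
        positivity
      have h4 := mul_le_mul_of_nonneg_right (hA i) h3
      linarith [h4]
    refine (Finset.sum_le_sum fun i _ => h1 i).trans ?_
    rcases le_or_gt p.1 m with hp | hp
    · rw [Finset.sum_eq_zero]
      · positivity
      · intro i _
        rw [chi_eq r hFG hp p.2 i, sub_self, abs_zero, mul_zero]
    · rw [← Finset.mul_sum]
      have h2 := sum_chi r hFG hsep p.1 p.2
      have h3 : ((1:ℝ)/2)^p.1 ≤ (1/2)^m :=
        pow_le_pow_of_le_one (by norm_num) (by norm_num) hp.le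
      have h4 : (0:ℝ) ≤ A * ((1/4) * (1/2)^p.1) := by positivity
      calc (A * ((1/4) * (1/2)^p.1)) * ∑ i, |chi r p.1 p.2 (F i) - chi r p.1 p.2 (G i)|
          ≤ (A * ((1/4) * (1/2)^p.1)) * 1 := mul_le_mul_of_nonneg_left h2 h4
        _ = (1/4 * A) * (1/2)^p.1 := by ring
        _ ≤ (1/4 * A) * (1/2)^m := mul_le_mul_of_nonneg_left h3 (by positivity)
        _ = 1 / 4 * (1 / 2) ^ m * A := by ring

theorem est2 (hr : Function.Injective r)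
    (hsep : ∀ i j, i ≠ j → ∃ k < m, r (F i) k ≠ r (F j) k) (a : ι → 𝕜) (i : ι) :
    ‖a i‖ ≤ ‖(∑ j, a j • zz 𝕜 r Z hr (F j)).fst‖ := by
  have h1 := norm_cu_le (Sum.inl (m, F i)) (∑ j, a j • zz 𝕜 r Z hr (F j))
  have h2 : cu (Sum.inl (m, F i)) (∑ j, a j • zz 𝕜 r Z hr (F j)) = a i := by
    rw [map_sum, Finset.sum_eq_single i]
    · rw [map_smul, cu_zz]
      have h3 : phi r Z (Sum.inl (m, F i)) (F i) = 1 := by
        rcases chi_cases r m (F i) (F i) with ⟨h, _⟩ | ⟨_, h⟩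
        · exact h
        · exact absurd (fun k _ => rfl) h
      rw [h3]; simp
    · intro j _ hj
      rw [map_smul, cu_zz]
      have h3 : phi r Z (Sum.inl (m, F i)) (F j) = 0 := by
        rcases chi_cases r m (F i) (F j) with ⟨_, h⟩ | ⟨h, _⟩
        · obtain ⟨k, hk, hne⟩ := hsep j i hj
          exact absurd (h k hk) hne
        · exact h
      rw [h3]; simp
    · intro h; exact absurd (Finset.mem_univ _) h
  rw [h2] at h1
  exact h1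

end family

end sp

end Pool.Agent.Helper627_Conc
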