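import Mathlib
import Pool.Agent.Helper627_Conc.Space
import Pool.Agent.Helper627_Conc.Comb2

open scoped ENNReal
open Set Filter

namespace Pool.Agent.Helper627_Conc

section main

variable {𝕜 : Type} [RCLike 𝕜] {Ω : Type} (r : Ω → ℕ → Bool) (Z : Ω → Ω → Prop)

variable (𝕜) in
/-- the Banach space: closed span of the vectors `zz ζ` -/
noncomputable def XX (hr : Function.Injective r) : Submodule 𝕜 (EE 𝕜 Ω) :=
  (Submodule.span 𝕜 (Set.range (zz 𝕜 r Z hr))).topologicalClosure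

theorem exists_sep_level (hr : Function.Injective r) {ι : Type} [Finite ι] (F : ι → Ω)
    (hF : Function.Injective F) : ∃ m₀, ∀ m, m₀ ≤ m → ∀ i j, i ≠ j →
      ∃ k < m, r (F i) k ≠ r (F j) k := by
  classical
  have := Fintype.ofFinite ι
  refine ⟨Finset.univ.sup (fun p : ι × ι => lev r (F p.1) (F p.2) + 1), fun m hm i j hij => ?_⟩
  have h1 := Finset.le_sup (f := fun p : ι × ι => lev r (F p.1) (F p.2) + 1)
    (Finset.mem_univ (i, j))
  have h2 : lev r (F i) (F j) + 1 ≤ m := h1.trans hm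
  exact ⟨lev r (F i) (F j), h2, (lev_spec r hr (hF.ne hij)).1⟩

theorem exists_chi_level (hr : Function.Injective r) (s : Finset Ω) (ξ : Ω) :
    ∃ n₀, ∀ n, n₀ ≤ n → ∀ ζ ∈ s, chi r n ξ ζ = ind ζ ξ := by
  classical
  refine ⟨s.sup (fun ζ => lev r ζ ξ + 1), fun n hn ζ hζ => ?_⟩
  have h1 := Finset.le_sup (f := fun ζ => lev r ζ ξ + 1) hζ
  rcases ind_cases ζ ξ with ⟨h2, h3⟩ | ⟨h2, h3⟩
  · rw [h2, h3]
    rcases chi_cases r n ξ ξ with ⟨h, _⟩ | ⟨_, h⟩
    · exact h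
    · exact absurd (fun k _ => rfl) h
  · rw [h2]
    rcases chi_cases r n ξ ζ with ⟨_, h⟩ | ⟨h, _⟩
    · have h4 : lev r ζ ξ + 1 ≤ n := h1.trans hn
      exact absurd (h (lev r ζ ξ) h4) (lev_spec r hr h3).1
    · exact h

theorem inl_zero (hr : Function.Injective r) {w : EE 𝕜 Ω} (hw : w ∈ XX 𝕜 r Z hr)
    (hs : w.snd = 0) (p : ℕ × Ω) : cu (Sum.inl p) w = 0 := by
  have h1 : w ∈ LinearMap.ker
      ((cv p - (((1/4) * (1/2)^p.1 : ℝ) : 𝕜) • cu (Sum.inl p) : EE 𝕜 Ω →L[𝕜] 𝕜) :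
        EE 𝕜 Ω →ₗ[𝕜] 𝕜) := by
    refine Submodule.topologicalClosure_minimal _ ?_
      (ContinuousLinearMap.isClosed_ker (cv p - (((1/4) * (1/2)^p.1 : ℝ) : 𝕜) • cu (Sum.inl p))) hw
    rw [Submodule.span_le]
    rintro _ ⟨ζ, rfl⟩
    show (cv p - (((1/4) * (1/2)^p.1 : ℝ) : 𝕜) • cu (Sum.inl p) : EE 𝕜 Ω →L[𝕜] 𝕜)
      (zz 𝕜 r Z hr ζ) = 0
    rw [sub_apply, smul_apply, cv_zz, cu_zz, smul_eq_mul,
      ← RCLike.ofReal_mul, ← RCLike.ofReal_sub]
    have : psi r p ζ - (1/4) * (1/2)^p.1 * phi r Z (Sum.inl p) ζ = 0 := by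
      unfold psi phi; ring
    rw [this]; simp
  have h2 : cv p w - (((1/4) * (1/2)^p.1 : ℝ) : 𝕜) • cu (Sum.inl p) w = 0 := h1
  have h3 : cv p w = 0 := by
    rw [cv_apply, hs]; rfl
  rw [h3, zero_sub, neg_eq_zero, smul_eq_mul, mul_eq_zero] at h2
  rcases h2 with h2 | h2
  · exfalso
    have h4 : ((1/4) * (1/2)^p.1 : ℝ) = 0 := by exact_mod_cast h2
    have h5 : (0:ℝ) < (1/4) * (1/2)^p.1 := by positivity
    linarith
  · exact h2

theorem inj (hr : Function.Injective r) {w : EE 𝕜 Ω} (hw : w ∈ XX 𝕜 r Z hr)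
    (hs : w.snd = 0) : w.fst = 0 := by
  have hl := inl_zero r Z hr hw hs
  have hall : ∀ j, cu j w = 0 := by
    rintro (p | ⟨ξ, η⟩)
    · exact hl p
    · rw [← norm_eq_zero]
      by_contra hne
      have hpos : 0 < ‖cu (Sum.inr (ξ, η)) w‖ := lt_of_le_of_ne (norm_nonneg _) (Ne.symm hne)
      set ε := ‖cu (Sum.inr (ξ, η)) w‖ / 4 with hε
      have hε0 : 0 < ε := by positivity
      have hw' : w ∈ closure ((Submodule.span 𝕜 (Set.range (zz 𝕜 r Z hr)) :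
        Submodule 𝕜 (EE 𝕜 Ω)) : Set (EE 𝕜 Ω)) := hw
      obtain ⟨w', hw'1, hw'2⟩ := Metric.mem_closure_iff.1 hw' ε hε0
      rw [dist_eq_norm] at hw'2
      obtain ⟨c, hc⟩ := (Finsupp.mem_span_range_iff_exists_finsupp).1 hw'1
      have hcu : ∀ j, ‖cu j (w - w')‖ ≤ ε := fun j =>
        ((norm_cu_le j _).trans (norm_fst_le_norm _)).trans hw'2.le
      by_cases h : ξ ≠ η ∧ Z ξ η
      · obtain ⟨n₁, hn₁⟩ := exists_chi_level r hr c.support ξ
        obtain ⟨n₂, hn₂⟩ := exists_chi_level r hr c.support η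
        let n := max n₁ n₂
        let l := lev r ξ η + 1
        have hid : cu (Sum.inr (ξ, η)) w' =
            ((1/2 : ℝ) : 𝕜) * (cu (Sum.inl (n, ξ)) w' - cu (Sum.inl (n, η)) w') +
            ((1/4 : ℝ) : 𝕜) * (cu (Sum.inl (l, ξ)) w' - cu (Sum.inl (l, η)) w') := by
          rw [← hc]
          simp only [Finsupp.sum, map_sum, map_smul, cu_zz, smul_eq_mul]
          rw [← Finset.sum_sub_distrib, ← Finset.sum_sub_distrib, Finset.mul_sum, Finset.mul_sum,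
            ← Finset.sum_add_distrib]
          refine Finset.sum_congr rfl fun ζ hζ => ?_
          have hphi : phi r Z (Sum.inr (ξ, η)) ζ = (1/2) * (ind ζ ξ - ind ζ η) +
              (1/4) * (chi r (lev r ξ η + 1) ξ ζ - chi r (lev r ξ η + 1) η ζ) := by
            simp only [phi]
            exact if_pos h
          have e1 : phi r Z (Sum.inl (n, ξ)) ζ = ind ζ ξ := hn₁ n (le_max_left _ _) ζ hζ
          have e2 : phi r Z (Sum.inl (n, η)) ζ = ind ζ η := hn₂ n (le_max_right _ _) ζ hζ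
          have e3 : phi r Z (Sum.inl (l, ξ)) ζ = chi r (lev r ξ η + 1) ξ ζ := rfl
          have e4 : phi r Z (Sum.inl (l, η)) ζ = chi r (lev r ξ η + 1) η ζ := rfl
          rw [hphi, e1, e2, e3, e4]
          push_cast
          ring
        have hid2 : cu (Sum.inr (ξ, η)) w = cu (Sum.inr (ξ, η)) (w - w') -
            (((1/2 : ℝ) : 𝕜) * (cu (Sum.inl (n, ξ)) (w - w') - cu (Sum.inl (n, η)) (w - w')) +
            ((1/4 : ℝ) : 𝕜) * (cu (Sum.inl (l, ξ)) (w - w') - cu (Sum.inl (l, η)) (w - w'))) := by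
          simp only [map_sub]
          rw [hid, hl, hl, hl, hl]
          ring
        have hb : ‖cu (Sum.inr (ξ, η)) w‖ ≤ ε + ((1/2) * (ε + ε) + (1/4) * (ε + ε)) := by
          rw [hid2]
          refine (norm_sub_le _ _).trans (add_le_add (hcu _) ?_)
          refine (norm_add_le _ _).trans (add_le_add ?_ ?_)
          · rw [norm_mul, RCLike.norm_ofReal, abs_of_pos (by norm_num : (0:ℝ) < 1/2)]
            refine mul_le_mul_of_nonneg_left ?_ (by norm_num)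
            exact (norm_sub_le _ _).trans (add_le_add (hcu _) (hcu _))
          · rw [norm_mul, RCLike.norm_ofReal, abs_of_pos (by norm_num : (0:ℝ) < 1/4)]
            refine mul_le_mul_of_nonneg_left ?_ (by norm_num)
            exact (norm_sub_le _ _).trans (add_le_add (hcu _) (hcu _))
        rw [hε] at hb
        linarith
      · have h3 : cu (Sum.inr (ξ, η)) w' = 0 := by
          rw [← hc]
          simp only [Finsupp.sum, map_sum, map_smul, cu_zz, smul_eq_mul]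
          refine Finset.sum_eq_zero fun ζ _ => ?_
          rw [phi_pair_zero r Z h]; simp
        have h4 := hcu (Sum.inr (ξ, η))
        rw [map_sub, h3, sub_zero, hε] at h4
        linarith
  apply lp.ext
  funext j
  exact hall j

theorem approx (hr : Function.Injective r) {w : EE 𝕜 Ω} (hw : w ∈ XX 𝕜 r Z hr) {ε : ℝ}
    (hε : 0 < ε) : ∃ (n : ℕ) (F : Fin n → Ω), Function.Injective F ∧ ∃ k : Fin n → ℕ,
      ‖w - ∑ i, TopologicalSpace.denseSeq 𝕜 (k i) • zz 𝕜 r Z hr (F i)‖ < ε := by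
  classical
  have hw' : w ∈ closure ((Submodule.span 𝕜 (Set.range (zz 𝕜 r Z hr)) :
    Submodule 𝕜 (EE 𝕜 Ω)) : Set (EE 𝕜 Ω)) := hw
  obtain ⟨w', hw'1, hw'2⟩ := Metric.mem_closure_iff.1 hw' (ε/2) (by positivity)
  rw [dist_eq_norm] at hw'2
  obtain ⟨c, hc⟩ := (Finsupp.mem_span_range_iff_exists_finsupp).1 hw'1
  let n := c.support.card
  let F : Fin n → Ω := fun i => (c.support.equivFin.symm i : Ω)
  have hF : Function.Injective F := fun i j hij =>
    c.support.equivFin.symm.injective (Subtype.ext hij)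
  have hsum : w' = ∑ i, c (F i) • zz 𝕜 r Z hr (F i) := by
    rw [← hc]
    simp only [Finsupp.sum]
    rw [← Finset.sum_coe_sort c.support (fun ζ => c ζ • zz 𝕜 r Z hr ζ)]
    exact (Equiv.sum_comp c.support.equivFin.symm
      (fun ζ : c.support => c ζ • zz 𝕜 r Z hr ζ)).symm
  have hδ : 0 < ε / (4 * (n + 1)) := by positivity
  have hdense : ∀ i : Fin n, ∃ k : ℕ,
      ‖c (F i) - TopologicalSpace.denseSeq 𝕜 k‖ < ε / (4 * (n + 1)) := by
    intro i
    obtain ⟨y, ⟨k, rfl⟩, hk⟩ := Metric.mem_closure_iff.1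
      ((TopologicalSpace.denseRange_denseSeq 𝕜) (c (F i))) _ hδ
    exact ⟨k, by rw [← dist_eq_norm]; exact hk⟩
  choose k hk using hdense
  refine ⟨n, F, hF, k, ?_⟩
  have h1 : w - ∑ i, TopologicalSpace.denseSeq 𝕜 (k i) • zz 𝕜 r Z hr (F i) =
      (w - w') + ∑ i, (c (F i) - TopologicalSpace.denseSeq 𝕜 (k i)) • zz 𝕜 r Z hr (F i) := by
    simp only [sub_smul, Finset.sum_sub_distrib]
    rw [← hsum]; abel
  rw [h1]
  have h2 : ‖∑ i, (c (F i) - TopologicalSpace.denseSeq 𝕜 (k i)) • zz 𝕜 r Z hr (F i)‖ ≤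
      ∑ _i : Fin n, (ε / (4 * (n + 1))) * (5/4) := by
    refine (norm_sum_le _ _).trans (Finset.sum_le_sum fun i _ => ?_)
    rw [norm_smul, norm_zz]
    exact mul_le_mul_of_nonneg_right (hk i).le (by norm_num)
  have h3 : ∑ _i : Fin n, (ε / (4 * (n + 1))) * (5/4) ≤ ε / 2 := by
    rw [Finset.sum_const, Finset.card_univ, Fintype.card_fin, nsmul_eq_mul]
    have h4 : (n : ℝ) / (n + 1) ≤ 1 := by
      rw [div_le_one (by positivity)]; linarith
    have h5 : (n : ℝ) * (ε / (4 * (n + 1)) * (5 / 4)) = (n / (n + 1)) * (ε * (5/16)) := by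
      field_simp
      ring
    rw [h5]
    have h6 : (n : ℝ) / (n + 1) * (ε * (5/16)) ≤ 1 * (ε * (5/16)) :=
      mul_le_mul_of_nonneg_right h4 (by positivity)
    linarith
  calc _ ≤ ‖w - w'‖ + _ := norm_add_le _ _
    _ < ε/2 + ε/2 := add_lt_add_of_lt_of_le hw'2 (h2.trans h3)
    _ = ε := by ring

/-- every uncountable subset of the sphere has two points at distance less than one -/
theorem sphere_close [Nonempty Ω] (hr : Function.Injective r)
    (hcolour : ∀ (J ι : Type) (_ : Finite ι) (F : J → ι → Ω) (I : Set J), ¬ I.Countable →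
        ∃ α ∈ I, ∃ β ∈ I, α ≠ β ∧ ∀ i, F α i = F β i ∨
          (¬ Z (F α i) (F β i) ∧ ¬ Z (F β i) (F α i)))
    (W : Set (EE 𝕜 Ω)) (hWX : ∀ w ∈ W, w ∈ XX 𝕜 r Z hr) (hW1 : ∀ w ∈ W, ‖w‖ = 1)
    (hW : ¬ W.Countable) : ∃ w ∈ W, ∃ w' ∈ W, w ≠ w' ∧ ‖w - w'‖ < 1 := by
  classical
  -- positive second component
  have hpos : ∀ w ∈ W, 0 < ‖w.snd‖ := by
    intro w hw
    by_contra h
    have h1 : w.snd = 0 := norm_eq_zero.1 (le_antisymm (not_lt.1 h) (norm_nonneg _))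
    have h2 := inj r Z hr (hWX w hw) h1
    have h3 := norm_EE w
    rw [h1, h2, hW1 w hw] at h3
    simp at h3
  obtain ⟨N, hN⟩ : ∃ N : ℕ, ¬ {w ∈ W | 5 * (1 / ((N : ℝ) + 1)) ≤ ‖w.snd‖}.Countable := by
    by_contra hall
    push Not at hall
    apply hW
    refine (Set.countable_iUnion hall).mono fun w hw => ?_
    obtain ⟨N, hN⟩ := exists_nat_one_div_lt (show (0:ℝ) < ‖w.snd‖ / 5 by
      have := hpos w hw; positivity)
    refine Set.mem_iUnion.2 ⟨N, hw, ?_⟩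
    linarith
  set ε : ℝ := 1 / ((N : ℝ) + 1) with hεdef
  have hε : 0 < ε := by positivity
  -- codes
  let Code : Type := Σ n : ℕ, (Fin n → ℕ) × (Σ m : ℕ, Fin n → Fin m → Bool)
  let WW : Code → Set (EE 𝕜 Ω) := fun d =>
    {w | (w ∈ W ∧ 5 * ε ≤ ‖w.snd‖) ∧ (∀ i j, i ≠ j → d.2.2.2 i ≠ d.2.2.2 j) ∧
      ((1:ℝ)/2)^d.2.2.1 ≤ ε ∧
      ∃ F : Fin d.1 → Ω, (∀ i (l : Fin d.2.2.1), r (F i) l = d.2.2.2 i l) ∧
        ‖w - ∑ i, TopologicalSpace.denseSeq 𝕜 (d.2.1 i) • zz 𝕜 r Z hr (F i)‖ < ε}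
  obtain ⟨d, hd⟩ : ∃ d : Code, ¬ (WW d).Countable := by
    by_contra hall
    push Not at hall
    apply hN
    refine (Set.countable_iUnion hall).mono fun w hw => ?_
    obtain ⟨n, F, hF, k, hk⟩ := approx r Z hr (hWX w hw.1) hε
    obtain ⟨m₀, hm₀⟩ := exists_sep_level r hr F hF
    obtain ⟨m₁, hm₁⟩ := exists_pow_lt_of_lt_one hε (show (1/2 : ℝ) < 1 by norm_num)
    let m := max m₀ m₁
    refine Set.mem_iUnion.2 ⟨⟨n, k, m, fun i l => r (F i) l⟩, hw, ?_, ?_, F, ?_, hk⟩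
    · intro i j hij heq
      obtain ⟨l, hl, hne⟩ := hm₀ m (le_max_left _ _) i j hij
      exact hne (congrFun heq ⟨l, hl⟩)
    · exact (pow_le_pow_of_le_one (by norm_num) (by norm_num) (le_max_right m₀ m₁)).trans hm₁.le
    · intro i l; rfl
  obtain ⟨n, k, m, s⟩ := d
  have hchoose : ∀ w : EE 𝕜 Ω, ∃ F : Fin n → Ω, w ∈ WW ⟨n, k, m, s⟩ →
      ((∀ i (l : Fin m), r (F i) l = s i l) ∧
        ‖w - ∑ i, TopologicalSpace.denseSeq 𝕜 (k i) • zz 𝕜 r Z hr (F i)‖ < ε) := by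
    intro w
    by_cases h : w ∈ WW ⟨n, k, m, s⟩
    · obtain ⟨F, hF⟩ := h.2.2.2
      exact ⟨F, fun _ => hF⟩
    · exact ⟨fun _ => Classical.arbitrary Ω, fun h' => absurd h' h⟩
  choose F hF using hchoose
  obtain ⟨w, hw, w', hw', hne, hall⟩ := hcolour (EE 𝕜 Ω) (Fin n) inferInstance F _ hd
  refine ⟨w, hw.1.1, w', hw'.1.1, hne, ?_⟩
  obtain ⟨hF1, hF2⟩ := hF w hw
  obtain ⟨hF1', hF2'⟩ := hF w' hw'
  have hsinj : ∀ i j, i ≠ j → s i ≠ s j := hw.2.1
  have hm : ((1:ℝ)/2)^m ≤ ε := hw.2.2.1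
  have hFG : ∀ i, ∀ l < m, r (F w i) l = r (F w' i) l := by
    intro i l hl
    rw [hF1 i ⟨l, hl⟩, hF1' i ⟨l, hl⟩]
  have hsep : ∀ i j, i ≠ j → ∃ l < m, r (F w i) l ≠ r (F w j) l := by
    intro i j hij
    by_contra hcon
    push Not at hcon
    apply hsinj i j hij
    funext l
    rw [← hF1 i l, ← hF1 j l]
    exact hcon l l.2
  let a : Fin n → 𝕜 := fun i => TopologicalSpace.denseSeq 𝕜 (k i)
  have hfst : ‖w.fst‖ ≤ 1 - 5 * ε := by
    have h1 := norm_EE w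
    rw [hW1 w hw.1.1] at h1
    have h2 : 5 * ε ≤ ‖w.snd‖ := hw.1.2
    linarith
  have hA : ∀ i, ‖a i‖ ≤ 1 - 4 * ε := by
    intro i
    have h1 := est2 r Z hr hsep a i
    have h2 : ‖(∑ j, a j • zz 𝕜 r Z hr (F w j)).fst‖ ≤ ‖w.fst‖ + ε := by
      have h3 : (∑ j, a j • zz 𝕜 r Z hr (F w j)).fst =
          w.fst - (w - ∑ j, a j • zz 𝕜 r Z hr (F w j)).fst := by
        rw [WithLp.sub_fst]; abel
      rw [h3]
      refine (norm_sub_le _ _).trans (add_le_add le_rfl ?_)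
      exact (norm_fst_le_norm _).trans hF2.le
    linarith
  have hA0 : 0 ≤ 1 - 4 * ε := by linarith [norm_nonneg w.fst]
  have hest := est1 r Z hr hFG hsep hall a hA0 hA
  have hsplit : w - w' = (w - ∑ i, a i • zz 𝕜 r Z hr (F w i)) +
      (∑ i, a i • (zz 𝕜 r Z hr (F w i) - zz 𝕜 r Z hr (F w' i))) -
      (w' - ∑ i, a i • zz 𝕜 r Z hr (F w' i)) := by
    simp only [smul_sub, Finset.sum_sub_distrib]
    abel
  have h5 : (1/4) * (1/2)^m * (1 - 4 * ε) ≤ (1/4) * ε * 1 := by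
    refine mul_le_mul ?_ (by linarith) hA0 (by positivity)
    exact mul_le_mul_of_nonneg_left hm (by norm_num)
  rw [hsplit]
  calc _ ≤ ‖(w - ∑ i, a i • zz 𝕜 r Z hr (F w i)) +
      (∑ i, a i • (zz 𝕜 r Z hr (F w i) - zz 𝕜 r Z hr (F w' i)))‖ +
      ‖(w' - ∑ i, a i • zz 𝕜 r Z hr (F w' i))‖ := norm_sub_le _ _
    _ ≤ (‖(w - ∑ i, a i • zz 𝕜 r Z hr (F w i))‖ +
      ‖(∑ i, a i • (zz 𝕜 r Z hr (F w i) - zz 𝕜 r Z hr (F w' i)))‖) +
      ‖(w' - ∑ i, a i • zz 𝕜 r Z hr (F w' i))‖ := by gcongr; exact norm_add_le _ _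
    _ < 1 := by
      have h6 : ‖w - ∑ i, a i • zz 𝕜 r Z hr (F w i)‖ < ε := hF2
      have h7 : ‖w' - ∑ i, a i • zz 𝕜 r Z hr (F w' i)‖ < ε := hF2'
      linarith

end main

end Pool.Agent.Helper627_Conc
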